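import Pool.Agent.H20.MT.Stmts

/-! Project MTA: FJ. -/

set_option autoImplicit false

namespace MTA
open Finset

namespace FJAux

/-- series with logarithmic coefficients converge -/
theorem summ {f : ℕ → ℂ} {j : ℕ} {s : ℂ} (hs : 1 < s.re)
    (h : ∀ n : ℕ, n ≠ 0 → ‖f n‖ ≤ (Real.log n) ^ j) : LSeriesSummable f s := by
  set x : ℝ := (1 + s.re) / 2 with hx
  have hx1 : 1 < x := by rw [hx]; linarith
  have hx2 : x < s.re := by rw [hx]; linarith
  set ε : ℝ := (x - 1) / (j + 1) with hε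
  have hε0 : 0 < ε := by
    rw [hε]
    exact div_pos (by linarith) (by positivity)
  refine LSeriesSummable_of_le_const_mul_rpow hx2 ⟨(1 / ε) ^ j, fun n hn => ?_⟩
  refine (h n hn).trans ?_
  have hn1 : (1 : ℝ) ≤ n := by exact_mod_cast Nat.one_le_iff_ne_zero.2 hn
  have h1 : Real.log n ≤ (n : ℝ) ^ ε / ε := Real.log_natCast_le_rpow_div n hε0
  have h0 : 0 ≤ Real.log n := Real.log_nonneg hn1
  calc (Real.log n) ^ j ≤ ((n : ℝ) ^ ε / ε) ^ j := pow_le_pow_left₀ h0 h1 j
    _ = (1 / ε) ^ j * (n : ℝ) ^ (ε * j) := by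
        rw [div_pow, ← Real.rpow_mul_natCast (by positivity), one_div, inv_pow, div_eq_inv_mul]
    _ ≤ (1 / ε) ^ j * (n : ℝ) ^ (x - 1) := by
        refine mul_le_mul_of_nonneg_left ?_ (by positivity)
        refine Real.rpow_le_rpow_of_exponent_le hn1 ?_
        rw [hε, div_mul_eq_mul_div, div_le_iff₀ (by positivity)]
        nlinarith [(by positivity : (0 : ℝ) ≤ j)]

variable {r : ℕ} (χ : DirichletCharacter ℂ r)

/-- coefficients of `Lj` -/
noncomputable def lf (j : ℕ) : ℕ → ℂ := fun n => χ n * (Real.log n : ℂ) ^ j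

/-- coefficients of `Fj` -/
noncomputable def vf (j : ℕ) : ℕ → ℂ :=
  fun n => χ n * (ArithmeticFunction.vonMangoldt n : ℂ) * (Real.log n : ℂ) ^ j

theorem lf_summ (j : ℕ) {s : ℂ} (hs : 1 < s.re) : LSeriesSummable (lf χ j) s := by
  refine summ (j := j) hs fun n hn => ?_
  have hn1 : (1 : ℝ) ≤ n := by exact_mod_cast Nat.one_le_iff_ne_zero.2 hn
  have h0 : 0 ≤ Real.log n := Real.log_nonneg hn1
  unfold lf
  rw [norm_mul, norm_pow, Complex.norm_real, Real.norm_of_nonneg h0]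
  exact mul_le_of_le_one_left (by positivity) (χ.norm_le_one _)

theorem vf_summ (j : ℕ) {s : ℂ} (hs : 1 < s.re) : LSeriesSummable (vf χ j) s := by
  refine summ (j := j + 1) hs fun n hn => ?_
  have hn1 : (1 : ℝ) ≤ n := by exact_mod_cast Nat.one_le_iff_ne_zero.2 hn
  have h0 : 0 ≤ Real.log n := Real.log_nonneg hn1
  unfold vf
  rw [norm_mul, norm_mul, norm_pow, Complex.norm_real, Complex.norm_real,
    Real.norm_of_nonneg h0, Real.norm_of_nonneg ArithmeticFunction.vonMangoldt_nonneg, pow_succ',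
    mul_assoc]
  have h1 : ArithmeticFunction.vonMangoldt n * (Real.log n) ^ j ≤ Real.log n * (Real.log n) ^ j :=
    mul_le_mul_of_nonneg_right ArithmeticFunction.vonMangoldt_le_log (by positivity)
  have h2 : 0 ≤ ArithmeticFunction.vonMangoldt n * (Real.log n) ^ j :=
    mul_nonneg ArithmeticFunction.vonMangoldt_nonneg (by positivity)
  exact (mul_le_of_le_one_left h2 (χ.norm_le_one _)).trans h1

/-- Leibniz rule for the coefficients -/
theorem leib (k n : ℕ) (hn : n ≠ 0) : lf χ (k + 1) n =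
    ∑ j ∈ range (k + 1), ((k.choose j : ℕ) : ℂ) * (LSeries.convolution (vf χ j) (lf χ (k - j))) n := by
  have h1 : ∀ j ∈ range (k + 1), ((k.choose j : ℕ) : ℂ) * (LSeries.convolution (vf χ j) (lf χ (k - j))) n =
      ∑ p ∈ n.divisorsAntidiagonal, ((k.choose j : ℕ) : ℂ) * (vf χ j p.1 * lf χ (k - j) p.2) := by
    intro j _
    rw [LSeries.convolution_def, Finset.mul_sum]
  rw [Finset.sum_congr rfl h1, Finset.sum_comm]
  have h2 : ∀ p ∈ n.divisorsAntidiagonal, ∑ j ∈ range (k + 1), ((k.choose j : ℕ) : ℂ) *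
      (vf χ j p.1 * lf χ (k - j) p.2) =
      χ n * (Real.log n : ℂ) ^ k * (ArithmeticFunction.vonMangoldt p.1 : ℂ) := by
    intro p hp
    rw [Nat.mem_divisorsAntidiagonal] at hp
    obtain ⟨hp1, -⟩ := hp
    have hp2 : p.1 ≠ 0 := by
      rintro h
      rw [h, zero_mul] at hp1
      exact hn hp1.symm
    have hp3 : p.2 ≠ 0 := by
      rintro h
      rw [h, mul_zero] at hp1
      exact hn hp1.symm
    have h3 : (Real.log n : ℂ) = (Real.log p.1 : ℂ) + (Real.log p.2 : ℂ) := by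
      rw [← hp1, Nat.cast_mul, Real.log_mul (by exact_mod_cast hp2) (by exact_mod_cast hp3)]
      push_cast
      rfl
    have h4 : χ n = χ p.1 * χ p.2 := by
      rw [← hp1, Nat.cast_mul, map_mul]
    rw [h3, add_pow, h4, Finset.mul_sum, Finset.sum_mul]
    refine Finset.sum_congr rfl fun j _ => ?_
    unfold vf lf
    ring
  rw [Finset.sum_congr rfl h2, ← Finset.mul_sum]
  have h5 : ∑ p ∈ n.divisorsAntidiagonal, (ArithmeticFunction.vonMangoldt p.1 : ℂ) =
      (Real.log n : ℂ) := by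
    rw [Nat.sum_divisorsAntidiagonal (f := fun i _ => (ArithmeticFunction.vonMangoldt i : ℂ))]
    rw [← ArithmeticFunction.vonMangoldt_sum]
    push_cast
    rfl
  rw [h5]
  unfold lf
  rw [pow_succ]
  ring

/-- Leibniz rule for the series -/
theorem leibS (k : ℕ) {s : ℂ} (hs : 1 < s.re) : Lj χ (k + 1) s =
    ∑ j ∈ range (k + 1), ((k.choose j : ℕ) : ℂ) * (Fj χ j s * Lj χ (k - j) s) := by
  have e1 : Lj χ (k + 1) s = LSeries (∑ j ∈ range (k + 1), ((k.choose j : ℕ) : ℂ) •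
      (LSeries.convolution (vf χ j) (lf χ (k - j)))) s := by
    unfold Lj
    refine LSeries_congr (fun {n} hn => ?_) s
    rw [Finset.sum_apply]
    exact leib χ k n hn
  rw [e1, LSeries_sum]
  · refine Finset.sum_congr rfl fun j _ => ?_
    rw [LSeries_smul, LSeries_convolution' (vf_summ χ j hs) (lf_summ χ (k - j) hs)]
    rfl
  · intro j _
    exact ((vf_summ χ j hs).convolution (lf_summ χ (k - j) hs)).smul _

theorem LL_ge {r : ℕ} [NeZero r] (t : ℝ) : 1 ≤ LL r t := by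
  unfold LL
  have h1 : (1 : ℝ) ≤ r := by exact_mod_cast Nat.one_le_iff_ne_zero.2 (NeZero.ne r)
  have h2 : (3 : ℝ) ≤ r * (|t| + 3) := by nlinarith [abs_nonneg t]
  rw [Real.le_log_iff_exp_le (by linarith)]
  have := Real.exp_one_lt_d9
  linarith

end FJAux

open FJAux in
theorem FJ (hL : S_LUP) : S_FJ := by
  intro k
  induction k using Nat.strong_induction_on with
  | _ k ih =>
    choose C hC hLb using hL
    have ih' : ∀ j : ℕ, ∃ D : ℝ, 0 < D ∧ (j < k → ∀ (r : ℕ) [NeZero r]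
        (χ : DirichletCharacter ℂ r), χ ≠ 1 →
        ∀ (s : ℂ) (dl : ℝ), 1 < s.re → s.re ≤ 2 → 0 < dl → dl ≤ 1 → dl ≤ ‖Lj χ 0 s‖ →
        ‖Fj χ j s‖ ≤ D * ((LL r s.im) ^ 2 / dl) ^ (j + 1)) := by
      intro j
      by_cases hj : j < k
      · obtain ⟨D, h1, h2⟩ := ih j hj
        exact ⟨D, h1, fun _ => h2⟩
      · exact ⟨1, one_pos, fun h => absurd h hj⟩
    choose D hD hDb using ih'
    refine ⟨C (k + 1) + ∑ j ∈ range k, (k.choose j : ℝ) * (D j * C (k - j)), ?_, ?_⟩
    · have : 0 ≤ ∑ j ∈ range k, (k.choose j : ℝ) * (D j * C (k - j)) :=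
        Finset.sum_nonneg fun j _ => mul_nonneg (by positivity)
          (mul_nonneg (hD j).le (hC _).le)
      linarith [hC (k + 1)]
    · intro r _ χ hχ s dl hs1 hs2 hdl0 hdl1 hdl
      have hlb := leibS χ k hs1
      rw [Finset.sum_range_succ, Nat.choose_self, Nat.cast_one, one_mul, Nat.sub_self] at hlb
      have hL0 : Lj χ 0 s ≠ 0 := by
        intro h
        rw [h, norm_zero] at hdl
        linarith
      set Λ := LL r s.im with hΛ
      have hΛ1 : 1 ≤ Λ := LL_ge s.im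
      have e1 : Fj χ k s * Lj χ 0 s = Lj χ (k + 1) s -
          ∑ j ∈ range k, ((k.choose j : ℕ) : ℂ) * (Fj χ j s * Lj χ (k - j) s) := by
        rw [hlb]
        ring
      have e2 : ‖Fj χ k s‖ * ‖Lj χ 0 s‖ ≤ ‖Lj χ (k + 1) s‖ +
          ∑ j ∈ range k, (k.choose j : ℝ) * (‖Fj χ j s‖ * ‖Lj χ (k - j) s‖) := by
        rw [← norm_mul, e1]
        refine (norm_sub_le _ _).trans (add_le_add le_rfl ?_)
        refine norm_sum_le_of_le _ fun j _ => ?_
        rw [norm_mul, norm_mul, Complex.norm_natCast]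
      have hb : ∀ u v : ℕ, u ≤ 2 * (k + 1) → v + 1 ≤ k + 1 →
          Λ ^ u / dl ^ v ≤ dl * (Λ ^ 2 / dl) ^ (k + 1) := by
        intro u v hu hv
        have h1 : Λ ^ u ≤ Λ ^ (2 * (k + 1)) := pow_le_pow_right₀ hΛ1 hu
        have h2 : dl ^ k ≤ dl ^ v := pow_le_pow_of_le_one hdl0.le hdl1 (by omega)
        have h3 : dl * (Λ ^ 2 / dl) ^ (k + 1) = Λ ^ (2 * (k + 1)) / dl ^ k := by
          rw [div_pow, ← pow_mul, pow_succ dl k]
          field_simp
        rw [h3]
        exact div_le_div₀ (by positivity) h1 (by positivity) h2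
      have b1 : ‖Lj χ (k + 1) s‖ ≤ C (k + 1) * (dl * (Λ ^ 2 / dl) ^ (k + 1)) := by
        refine (hLb (k + 1) r χ hχ s hs1 hs2).trans ?_
        refine mul_le_mul_of_nonneg_left ?_ (hC _).le
        have := hb (k + 1 + 1) 0 (by omega) (by omega)
        rwa [pow_zero, div_one] at this
      have b2 : ∀ j ∈ range k, (k.choose j : ℝ) * (‖Fj χ j s‖ * ‖Lj χ (k - j) s‖) ≤
          (k.choose j : ℝ) * (D j * C (k - j)) * (dl * (Λ ^ 2 / dl) ^ (k + 1)) := by
        intro j hj
        rw [mem_range] at hj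
        rw [mul_assoc]
        refine mul_le_mul_of_nonneg_left ?_ (by positivity)
        have h1 := hDb j hj r χ hχ s dl hs1 hs2 hdl0 hdl1 hdl
        have h2 := hLb (k - j) r χ hχ s hs1 hs2
        rw [← hΛ] at h1 h2
        calc ‖Fj χ j s‖ * ‖Lj χ (k - j) s‖ ≤
            (D j * (Λ ^ 2 / dl) ^ (j + 1)) * (C (k - j) * Λ ^ (k - j + 1)) :=
              mul_le_mul h1 h2 (norm_nonneg _)
                (mul_nonneg (hD j).le (by positivity))
          _ = D j * C (k - j) * (Λ ^ (2 * (j + 1) + (k - j + 1)) / dl ^ (j + 1)) := by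
              rw [div_pow, ← pow_mul, pow_add]
              ring
          _ ≤ D j * C (k - j) * (dl * (Λ ^ 2 / dl) ^ (k + 1)) := by
              refine mul_le_mul_of_nonneg_left (hb _ _ (by omega) (by omega))
                (mul_nonneg (hD j).le (hC _).le)
      have b3 : ‖Fj χ k s‖ * ‖Lj χ 0 s‖ ≤
          (C (k + 1) + ∑ j ∈ range k, (k.choose j : ℝ) * (D j * C (k - j))) *
            (dl * (Λ ^ 2 / dl) ^ (k + 1)) := by
        refine e2.trans ?_
        rw [add_mul, Finset.sum_mul]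
        exact add_le_add b1 (Finset.sum_le_sum b2)
      have b4 : ‖Fj χ k s‖ * dl ≤ ‖Fj χ k s‖ * ‖Lj χ 0 s‖ :=
        mul_le_mul_of_nonneg_left hdl (norm_nonneg _)
      have b5 := b4.trans b3
      have e3 : (C (k + 1) + ∑ j ∈ range k, (k.choose j : ℝ) * (D j * C (k - j))) *
          (dl * (Λ ^ 2 / dl) ^ (k + 1)) = ((C (k + 1) + ∑ j ∈ range k, (k.choose j : ℝ) *
            (D j * C (k - j))) * (Λ ^ 2 / dl) ^ (k + 1)) * dl := by ring
      rw [e3] at b5
      exact le_of_mul_le_mul_right b5 hdl0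

end MTA
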