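import Pool.Agent.H80.MTA.TrAux

/-! Project MTA: TRK. -/

set_option autoImplicit false

namespace MTA
open Finset TrA

theorem TRK (hC : S_CLSK) (hE : S_EXC) : S_TRK := by
  classical
  intro n w0 c W b hT Y x l k hx hY
  set S : Cfg (PP W Y) n → Cfg (PP W Y) n → ℝ := fun D E =>
    ∑ t ∈ TT W b x, if (Dv c D t ∧ Dv c E t) then wt x t * th (hh c k.succ t) else 0 with hS
  have h1 : ∑ t ∈ TT W b x, wt x t * th (hh c k.succ t) * (ff c l t) ^ 2 =
      ∑ D, ∑ E, l D * l E * S D E :=
    sum_ff c l (TT W b x) (fun t => wt x t * th (hh c k.succ t)) S fun D E => rfl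
  rw [h1]
  refine main_bound l (wK k.succ) (TH (c k) x / (c k * W).totient) S
    (fun D E => Emax (c k) x (c k * W * Nat.lcm (qq D) (qq E))) fun D E => ?_
  by_cases hc : Cmpt D E
  · have e1 : S D E = ∑ t ∈ (TT W b x).filter (fun t => Dv c (mg D E) t),
        wt x t * th (hh c k.succ t) := by
      rw [hS]
      simp only
      rw [Finset.sum_filter]
      refine Finset.sum_congr rfl fun t _ => ?_
      have h3 := dv_mg hE hT D E t
      by_cases h5 : Dv c (mg D E) t
      · rw [if_pos (h3.2 ⟨hc, h5⟩), if_pos h5]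
      · rw [if_neg (fun h => h5 (h3.1 h).2), if_neg h5]
    obtain ⟨h2, h3⟩ := hC n w0 c W b hT Y x (mg D E) k hx hY
    by_cases ha : Avoid k.succ (mg D E)
    · have h4 := h2 ha
      rw [(prod_wK k.succ D E).1 hc ha, ← qq_mg D E, e1]
      have hcop : (c k * W).Coprime (qq (mg D E)) := by
        unfold qq
        refine Nat.Coprime.prod_right fun p _ => ?_
        split_ifs
        · have hp := (mem_filter.1 p.2).2
          rw [Nat.coprime_comm, Nat.Prime.coprime_iff_not_dvd hp.1]
          intro hd
          rcases (Nat.Prime.dvd_mul hp.1).1 hd with h | h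
          · exact hp.2 (hT.cW k p hp.1 h)
          · exact hp.2 h
        · simp
      have ht := totient_qq (mg D E)
      have e2 : TH (c k) x / (c k * W).totient * ∏ p : ↥(PP W Y),
          (if (mg D E p).isSome then 1 / (((p : ℕ) : ℝ) - 1) else 1) =
          TH (c k) x / (c k * W * qq (mg D E)).totient := by
        rw [Nat.totient_mul hcop]
        push_cast
        have hq : ((qq (mg D E)).totient : ℝ) ≠ 0 := by
          have := Nat.totient_pos.2 (qq_pos (mg D E))
          positivity
        rw [← div_div, eq_div_iff hq]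
        rw [mul_assoc, mul_comm (∏ p : ↥(PP W Y), _) _, ht, mul_one]
      rw [e2]
      exact h4
    · rw [(prod_wK k.succ D E).2 (fun h => ha h.2), mul_zero, sub_zero, e1, h3 ha, abs_zero]
      exact Emax_nonneg _ _ _
  · rw [(prod_wK k.succ D E).2 (fun h => hc h.1), mul_zero, sub_zero]
    have e1 : S D E = 0 := by
      rw [hS]
      simp only
      refine Finset.sum_eq_zero fun t _ => ?_
      rw [if_neg]
      intro h
      exact hc ((dv_mg hE hT D E t).1 h).1
    rw [e1, abs_zero]
    exact Emax_nonneg _ _ _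

end MTA
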