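import Pool.Agent.H80.MTA.TrAux

/-! Project MTA: TRU. -/

set_option autoImplicit false

namespace MTA
open Finset TrA

theorem TRU (hC : S_CLS) (hR : S_RES) (hE : S_EXC) : S_TRU := by
  classical
  obtain ⟨C0, hC0, hR⟩ := hR
  refine ⟨C0, hC0, ?_⟩
  intro n w0 c W b hT Y x l hx
  have hW : (0 : ℝ) < W := by exact_mod_cast hT.pos
  set S : Cfg (PP W Y) n → Cfg (PP W Y) n → ℝ := fun D E =>
    ∑ t ∈ TT W b x, if (Dv c D t ∧ Dv c E t) then wt x t else 0 with hS
  have h1 : ∑ t ∈ TT W b x, wt x t * (ff c l t) ^ 2 = ∑ D, ∑ E, l D * l E * S D E :=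
    sum_ff c l (TT W b x) (wt x) S fun D E => rfl
  rw [h1]
  refine (main_bound l (wU n) (x * Irho / W) S (fun _ _ => C0) fun D E => ?_).trans (le_of_eq ?_)
  · by_cases hc : Cmpt D E
    · rw [(prod_wU D E).1 hc]
      obtain ⟨a, ha, -⟩ := hC n w0 c W b hT Y (mg D E)
      have e1 : S D E = ∑ t ∈ (Icc 1 ⌊8 * x⌋₊).filter
          (fun t => t ≡ a [MOD W * qq (mg D E)]), wt x t := by
        rw [hS]
        simp only
        unfold TT
        rw [Finset.sum_filter, Finset.sum_filter]
        refine Finset.sum_congr rfl fun t _ => ?_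
        have h2 := ha t
        have h3 := dv_mg hE hT D E t
        by_cases h4 : t ≡ b [MOD W]
        · rw [if_pos h4]
          by_cases h5 : Dv c (mg D E) t
          · rw [if_pos (h3.2 ⟨hc, h5⟩), if_pos (h2.1 ⟨h4, h5⟩)]
          · rw [if_neg (fun h => h5 (h3.1 h).2), if_neg (fun h => h5 (h2.2 h).2)]
        · rw [if_neg h4, if_neg (fun h => h4 (h2.2 h).1)]
      have h4 := hR x (W * qq (mg D E)) a hx (Nat.mul_pos hT.pos (qq_pos _))
      rw [e1]
      have e2 : x * Irho / W * (1 / (qq (mg D E) : ℝ)) =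
          x * Irho / ((W * qq (mg D E) : ℕ) : ℝ) := by
        push_cast
        rw [div_mul_div_comm, mul_one]
      rw [e2]
      exact h4
    · rw [(prod_wU D E).2 hc, mul_zero, sub_zero]
      have e1 : S D E = 0 := by
        rw [hS]
        simp only
        refine Finset.sum_eq_zero fun t _ => ?_
        rw [if_neg]
        intro h
        exact hc ((dv_mg hE hT D E t).1 h).1
      rw [e1, abs_zero]
      exact hC0.le
  · rw [pow_two, Finset.sum_mul_sum, Finset.mul_sum]
    refine Finset.sum_congr rfl fun D _ => ?_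
    rw [Finset.mul_sum]
    exact Finset.sum_congr rfl fun E _ => by ring

end MTA
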