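import Pool.Agent.H20.MT.Stmts
import Pool.Agent.H20.MT.Rho

/-! Project MTA: common part of TRU and TRK: merging two configurations. -/

set_option autoImplicit false

namespace MTA.TrA
open Finset

variable {P : Finset ℕ} {n : ℕ}

/-- the merged configuration -/
def mg (D E : Cfg P n) : Cfg P n := fun p => (D p).or (E p)

/-- compatible configurations -/
def Cmpt (D E : Cfg P n) : Prop := ∀ p k l, D p = some k → E p = some l → k = l

theorem mg_some {D E : Cfg P n} {p : ↥P} {k : Fin (n + 1)} (h : D p = some k) :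
    mg D E p = some k := by
  unfold mg
  rw [h]
  rfl

theorem mg_none {D E : Cfg P n} {p : ↥P} (h : D p = none) : mg D E p = E p := by
  unfold mg
  rw [h]
  rfl

theorem dv_mg (hE : S_EXC) {w0 : ℕ} {c : Fin n → ℕ} {W b : ℕ} (hT : TupleOK n w0 c W b) {Y : ℝ}
    (D E : Cfg (PP W Y) n) (t : ℕ) :
    (Dv c D t ∧ Dv c E t) ↔ (Cmpt D E ∧ Dv c (mg D E) t) := by
  constructor
  · rintro ⟨h1, h2⟩
    constructor
    · intro p k l hk hl
      by_contra hne
      have hp := (mem_filter.1 p.2).2
      obtain ⟨a, ha, hb⟩ := hE n w0 c W b hT p hp.1 hp.2 k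
      exact hb l (Ne.symm hne) t ((ha t).1 (h1 p k hk)) (h2 p l hl)
    · intro p k hk
      rcases hD : D p with _ | k'
      · rw [mg_none hD] at hk
        exact h2 p k hk
      · rw [mg_some hD] at hk
        cases hk
        exact h1 p _ hD
  · rintro ⟨h1, h2⟩
    constructor
    · intro p k hk
      exact h2 p k (mg_some hk)
    · intro p l hl
      rcases hD : D p with _ | k
      · exact h2 p l (by rw [mg_none hD, hl])
      · have := h1 p k l hD hl
        subst this
        exact h2 p k (mg_some hD)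

open Classical in
theorem sum_ff (c : Fin n → ℕ) (l : Cfg P n → ℝ) (T : Finset ℕ) (u : ℕ → ℝ)
    (S : Cfg P n → Cfg P n → ℝ)
    (hS : ∀ D E, S D E = ∑ t ∈ T, if (Dv c D t ∧ Dv c E t) then u t else 0) :
    ∑ t ∈ T, u t * (ff c l t) ^ 2 = ∑ D, ∑ E, l D * l E * S D E := by
  classical
  have h1 : ∀ t, u t * (ff c l t) ^ 2 =
      ∑ D, ∑ E, l D * l E * (if (Dv c D t ∧ Dv c E t) then u t else 0) := by
    intro t
    unfold ff
    rw [pow_two, Finset.sum_mul_sum, Finset.mul_sum]
    refine Finset.sum_congr rfl fun D _ => ?_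
    rw [Finset.mul_sum]
    refine Finset.sum_congr rfl fun E _ => ?_
    by_cases hD : Dv c D t <;> by_cases hE : Dv c E t <;> simp [hD, hE]
    ring
  rw [Finset.sum_congr rfl fun t _ => h1 t, Finset.sum_comm]
  refine Finset.sum_congr rfl fun D _ => ?_
  rw [Finset.sum_comm]
  refine Finset.sum_congr rfl fun E _ => ?_
  rw [hS, Finset.mul_sum]

theorem main_bound (l : Cfg P n → ℝ) (w : ℕ → Option (Fin (n + 1)) → Option (Fin (n + 1)) → ℝ)
    (M : ℝ) (S B : Cfg P n → Cfg P n → ℝ)
    (h : ∀ D E, |S D E - M * ∏ p : ↥P, w p (D p) (E p)| ≤ B D E) :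
    |∑ D, ∑ E, l D * l E * S D E - M * qform w l| ≤ ∑ D, ∑ E, |l D| * |l E| * B D E := by
  have e : ∑ D, ∑ E, l D * l E * S D E - M * qform w l =
      ∑ D, ∑ E, l D * l E * (S D E - M * ∏ p : ↥P, w p (D p) (E p)) := by
    unfold qform
    rw [Finset.mul_sum, ← Finset.sum_sub_distrib]
    refine Finset.sum_congr rfl fun D _ => ?_
    rw [Finset.mul_sum, ← Finset.sum_sub_distrib]
    refine Finset.sum_congr rfl fun E _ => ?_
    ring
  rw [e]
  refine (Finset.abs_sum_le_sum_abs _ _).trans (Finset.sum_le_sum fun D _ => ?_)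
  refine (Finset.abs_sum_le_sum_abs _ _).trans (Finset.sum_le_sum fun E _ => ?_)
  rw [abs_mul, abs_mul]
  exact mul_le_mul_of_nonneg_left (h D E) (by positivity)

theorem qq_pos {W : ℕ} {Y : ℝ} (D : Cfg (PP W Y) n) : 0 < qq D := by
  unfold qq
  refine Finset.prod_pos fun p _ => ?_
  split_ifs
  · exact (mem_filter.1 p.2).2.1.pos
  · norm_num

/-- product kernel of the integer model -/
theorem prod_wU {W : ℕ} {Y : ℝ} (D E : Cfg (PP W Y) n) :
    (Cmpt D E → ∏ p : ↥(PP W Y), wU n p (D p) (E p) = 1 / (qq (mg D E) : ℝ)) ∧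
    (¬ Cmpt D E → ∏ p : ↥(PP W Y), wU n p (D p) (E p) = 0) := by
  constructor
  · intro hc
    unfold qq
    rw [Nat.cast_prod, one_div, ← Finset.prod_inv_distrib]
    refine Finset.prod_congr rfl fun p _ => ?_
    rcases hD : D p with _ | k
    · rw [mg_none hD]
      rcases hE : E p with _ | l <;> simp [wU]
    · rw [mg_some hD]
      rcases hE : E p with _ | l
      · simp [wU]
      · have := hc p k l hD hE
        subst this
        simp [wU]
  · intro hc
    unfold Cmpt at hc
    push Not at hc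
    obtain ⟨p, k, l, h1, h2, h3⟩ := hc
    refine Finset.prod_eq_zero (Finset.mem_univ p) ?_
    rw [h1, h2]
    simp [wU, h3]

/-- product kernel of the prime model -/
theorem prod_wK {W : ℕ} {Y : ℝ} (k : Fin (n + 1)) (D E : Cfg (PP W Y) n) :
    (Cmpt D E → Avoid k (mg D E) → ∏ p : ↥(PP W Y), wK k p (D p) (E p) =
      ∏ p : ↥(PP W Y), if (mg D E p).isSome then 1 / (((p : ℕ) : ℝ) - 1) else 1) ∧
    (¬ (Cmpt D E ∧ Avoid k (mg D E)) → ∏ p : ↥(PP W Y), wK k p (D p) (E p) = 0) := by
  constructor
  · intro hc ha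
    refine Finset.prod_congr rfl fun p _ => ?_
    have hap := ha p
    rcases hD : D p with _ | j
    · rw [mg_none hD] at hap ⊢
      rcases hE : E p with _ | l
      · simp [wK]
      · rw [hE] at hap
        have : l ≠ k := fun h => hap (by rw [h])
        simp [wK, this]
    · rw [mg_some hD] at hap ⊢
      have hj : j ≠ k := fun h => hap (by rw [h])
      rcases hE : E p with _ | l
      · simp [wK, hj]
      · have := hc p j l hD hE
        subst this
        simp [wK, hj]
  · intro hc
    by_cases h1 : Cmpt D E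
    · have h2 : ¬ Avoid k (mg D E) := fun h => hc ⟨h1, h⟩
      unfold Avoid at h2
      push Not at h2
      obtain ⟨p, hp⟩ := h2
      refine Finset.prod_eq_zero (Finset.mem_univ p) ?_
      rcases hD : D p with _ | j
      · rw [mg_none hD] at hp
        rw [hp]
        simp [wK]
      · rw [mg_some hD] at hp
        cases hp
        rcases hE : E p with _ | l <;> simp [wK]
    · unfold Cmpt at h1
      push Not at h1
      obtain ⟨p, j, l, g1, g2, g3⟩ := h1
      refine Finset.prod_eq_zero (Finset.mem_univ p) ?_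
      rw [g1, g2]
      simp [wK, g3]

/-- local factor of `qq` -/
def lq (F : Cfg P n) (p : ↥P) : ℕ := if (F p).isSome then (p : ℕ) else 1

theorem lq_coprime {W : ℕ} {Y : ℝ} (F G : Cfg (PP W Y) n) {p p' : ↥(PP W Y)} (h : p ≠ p') :
    (lq F p).Coprime (lq G p') := by
  unfold lq
  split_ifs
  · rw [Nat.coprime_primes (mem_filter.1 p.2).2.1 (mem_filter.1 p'.2).2.1]
    exact fun h' => h (Subtype.ext h')
  · simp
  · simp
  · simp

theorem totient_prod {W : ℕ} {Y : ℝ} (F : Cfg (PP W Y) n) (s : Finset ↥(PP W Y)) :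
    (∏ p ∈ s, lq F p).totient = ∏ p ∈ s, (lq F p).totient := by
  classical
  induction s using Finset.induction_on with
  | empty => simp
  | insert p s hp ih =>
    rw [Finset.prod_insert hp, Finset.prod_insert hp, Nat.totient_mul, ih]
    exact Nat.Coprime.prod_right fun p' hp' => lq_coprime F F (fun h => hp (h ▸ hp'))

theorem totient_qq {W : ℕ} {Y : ℝ} (F : Cfg (PP W Y) n) :
    ((qq F).totient : ℝ) * ∏ p : ↥(PP W Y), (if (F p).isSome then 1 / (((p : ℕ) : ℝ) - 1) else 1) =
      1 := by
  have h1 : (qq F).totient = ∏ p : ↥(PP W Y), (lq F p).totient := totient_prod F Finset.univ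
  rw [h1, Nat.cast_prod, ← Finset.prod_mul_distrib]
  refine Finset.prod_eq_one fun p _ => ?_
  unfold lq
  have hp := (mem_filter.1 p.2).2.1
  split_ifs with h
  · rw [Nat.totient_prime hp, Nat.cast_sub hp.one_le, Nat.cast_one]
    have : (0 : ℝ) < (p : ℕ) - 1 := by
      have := hp.one_lt
      have : (1 : ℝ) < (p : ℕ) := by exact_mod_cast this
      linarith
    field_simp
  · simp

theorem qq_mg {W : ℕ} {Y : ℝ} (D E : Cfg (PP W Y) n) :
    qq (mg D E) = Nat.lcm (qq D) (qq E) := by
  have hd : ∀ F : Cfg (PP W Y) n, qq F = ∏ p : ↥(PP W Y), lq F p := fun F => rfl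
  apply Nat.dvd_antisymm
  · rw [hd (mg D E)]
    refine Finset.prod_dvd_of_isRelPrime ?_ fun p _ => ?_
    · intro p _ p' _ h
      exact Nat.coprime_iff_isRelPrime.1 (lq_coprime _ _ h)
    · rcases hD : D p with _ | k
      · have : lq (mg D E) p = lq E p := by
          unfold lq
          rw [mg_none hD]
        rw [this]
        exact (Finset.dvd_prod_of_mem _ (Finset.mem_univ p)).trans (Nat.dvd_lcm_right _ _)
      · have : lq (mg D E) p = lq D p := by
          unfold lq
          rw [mg_some hD, hD]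
        rw [this]
        exact (Finset.dvd_prod_of_mem _ (Finset.mem_univ p)).trans (Nat.dvd_lcm_left _ _)
  · refine Nat.lcm_dvd ?_ ?_
    · rw [hd D, hd (mg D E)]
      refine Finset.prod_dvd_prod_of_dvd _ _ fun p _ => ?_
      unfold lq
      rcases hD : D p with _ | k
      · simp
      · rw [mg_some hD]
    · rw [hd E, hd (mg D E)]
      refine Finset.prod_dvd_prod_of_dvd _ _ fun p _ => ?_
      unfold lq
      rcases hE : E p with _ | k
      · simp
      · rcases hD : D p with _ | j
        · rw [mg_none hD, hE]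
        · rw [mg_some hD]
          simp

end MTA.TrA
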